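import Pool.Agent.H71.CQ.Basic

/-!
# RBD: one more real is avoided
-/

set_option autoImplicit false

open Set

namespace Pool.Agent.H67.CQ

open Pool.Agent.H71.CQ

section

variable {L : Type} {N : NF L} {e : ℕ → ℕ → L} {p q : L}

/-- an untouched point -/
theorem exists_fresh {a : ℕ → ℕ → Option L} (ha : Cnd N e p q a) (hq : (Srt e q).Infinite)
    (x x' : ℕ) : ∃ z, e z z = q ∧ z ≠ x ∧ z ≠ x' ∧ (∀ w, a z w = none) ∧ ∀ w, a w z = none := by
  have h1 : ((fun z : ℕ × ℕ => z.1) '' {z : ℕ × ℕ | a z.1 z.2 ≠ none} ∪ {x, x'}).Finite :=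
    (ha.fin.image _).union (Set.toFinite _)
  obtain ⟨z, hz, hn⟩ := hq.exists_notMem_finite h1
  have h2 : ∀ w, a z w = none := by
    intro w
    by_contra h
    exact hn (Or.inl ⟨(z, w), h, rfl⟩)
  refine ⟨z, hz, fun h => hn (Or.inr (by rw [h]; simp)), fun h => hn (Or.inr (by rw [h]; simp)),
    h2, ?_⟩
  intro w
  cases h : a w z with
  | none => rfl
  | some l =>
    have := ha.rev w z l h
    rw [h2 w] at this
    cases this

/-- the indices which occur in a row -/
theorem row_finite {a : ℕ → ℕ → Option L} (ha : Cnd N e p q a) {lam : ℕ → L}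
    (hl : Function.Injective lam) (x : ℕ) : {i | ∃ w, a x w = some (lam i)}.Finite := by
  have h1 : ((fun z : ℕ × ℕ => a z.1 z.2) '' {z : ℕ × ℕ | a z.1 z.2 ≠ none}).Finite :=
    ha.fin.image _
  have h2 : Function.Injective fun i => some (lam i) := fun i j h => hl (Option.some.inj h)
  refine (h1.preimage h2.injOn).subset ?_
  rintro i ⟨w, hw⟩
  refine ⟨(x, w), ?_, hw⟩
  show a x w ≠ none
  rw [hw]
  exact Option.some_ne_none _

theorem deg_pos (hDEG : T_DEG) (hN : N.Sep) (he : Mem N e) {x x1 y1 : ℕ} {l : L}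
    (hx : e x1 x1 = e x x) (hl : e x1 y1 = l) (ho : ¬ Op N l) :
    (0 : ℕ∞) < {w | e x w = l}.encard := by
  have h1 := (hDEG L N hN ℕ ℕ e e he he x1 x hx l ho).2
  rw [← h1]
  rw [Set.encard_pos]
  exact ⟨y1, hl⟩

/-- one step -/
theorem rb_step (hDEG : T_DEG) (hRBA : T_RBA) (hN : N.Sep) (he : Mem N e)
    (hq : (Srt e q).Infinite) {lam : ℕ → L} (hlam : Lam N e p q lam) {x x' : ℕ} (hne : x ≠ x')
    (hx : e x x = p) (hx' : e x' x' = p) {a : ℕ → ℕ → Option L} (ha : Cnd N e p q a) {i j : ℕ}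
    (hij : i ≠ j) (hi : {w | a x w = some (lam i)}.encard < {w | e x w = lam i}.encard)
    (hj : ∀ w, a x' w ≠ some (lam j)) :
    ∃ b z, Cnd N e p q b ∧ Le a b ∧ b x z = some (lam i) ∧ b x' z = some (lam j) ∧
      a x z = none ∧ ∀ w, b x w ≠ none → a x w ≠ none ∨ w = z := by
  obtain ⟨z, hz, hzx, hzx', hz1, hz2⟩ := exists_fresh ha hq x x'
  obtain ⟨hinj, hl⟩ := hlam
  obtain ⟨hoi, u1, v1, huv1, hu1, hv1, huvi⟩ := hl i
  obtain ⟨hoj, u2, v2, huv2, hu2, hv2, huvj⟩ := hl j
  have hrevi : e v1 u1 = N.rev (lam i) := by rw [he.rev u1 v1, huvi]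
  have hrevj : e v2 u2 = N.rev (lam j) := by rw [he.rev u2 v2, huvj]
  have hrr : N.rev (lam i) ≠ N.rev (lam j) := by
    intro h
    apply hij
    apply hinj
    have e1 := he.toCoh.rev_rev u1 v1
    have e2 := he.toCoh.rev_rev u2 v2
    rw [huvi] at e1
    rw [huvj] at e2
    rw [← e1, ← e2, h]
  obtain ⟨b, hb, hab, hbxz, hbn⟩ := hRBA L N hN e he p q a ha x z
    ⟨hzx.symm, Or.inl ⟨hx, hz⟩⟩ (hz2 x) (lam i)
    ⟨u1, v1, huv1, by rw [hu1, hx], by rw [hv1, hz], huvi⟩ (fun _ => hi) (by
      intro ho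
      have h0 : {w | a z w = some (N.rev (lam i))} = ∅ := by
        ext w
        simp [hz1 w]
      rw [h0, Set.encard_empty]
      exact deg_pos hDEG hN he (by rw [hv1, hz]) hrevi ho)
  have hbx'z : b x' z = none := by
    by_contra h
    rcases hbn x' z h with h | h | h
    · exact h (hz2 x')
    · exact hne h.1.symm
    · exact hzx' h.1.symm
  obtain ⟨c, hc, hbc, hcx'z, hcn⟩ := hRBA L N hN e he p q b hb x' z
    ⟨hzx'.symm, Or.inl ⟨hx', hz⟩⟩ hbx'z (lam j)
    ⟨u2, v2, huv2, by rw [hu2, hx'], by rw [hv2, hz], huvj⟩ (by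
      intro ho
      have h0 : {w | b x' w = some (lam j)} = ∅ := by
        ext w
        simp only [Set.mem_setOf_eq, Set.mem_empty_iff_false, iff_false]
        intro h
        rcases hbn x' w (by rw [h]; exact Option.some_ne_none _) with h1 | h1 | h1
        · obtain ⟨l, hl'⟩ := Option.ne_none_iff_exists'.1 h1
          have := hab x' w l hl'
          rw [h] at this
          rw [← this] at hl'
          exact hj w hl'
        · exact hne h1.1.symm
        · exact hzx' h1.1.symm
      rw [h0, Set.encard_empty]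
      exact deg_pos hDEG hN he (by rw [hu2, hx']) huvj ho) (by
      intro ho
      have h0 : {w | b z w = some (N.rev (lam j))} = ∅ := by
        ext w
        simp only [Set.mem_setOf_eq, Set.mem_empty_iff_false, iff_false]
        intro h
        rcases hbn z w (by rw [h]; exact Option.some_ne_none _) with h1 | h1 | h1
        · exact h1 (hz1 w)
        · exact hzx h1.1
        · have h2 := hb.rev x z _ hbxz
          rw [h1.2, h2] at h
          exact hrr (Option.some.inj h)
      rw [h0, Set.encard_empty]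
      exact deg_pos hDEG hN he (by rw [hv2, hz]) hrevj ho)
  refine ⟨c, z, hc, fun u v l h => hbc u v l (hab u v l h), hbc x z _ hbxz, hcx'z, hz2 x, ?_⟩
  intro w hw
  rcases hcn x w hw with h | h | h
  · rcases hbn x w h with h1 | h1 | h1
    · exact Or.inl h1
    · exact Or.inr h1.2
    · exact absurd h1.1.symm hzx
  · exact absurd h.1 hne
  · exact absurd h.1.symm hzx

/-- all neighbours with the label `lam i` -/
theorem rb_fill (hDEG : T_DEG) (hRBA : T_RBA) (hN : N.Sep) (he : Mem N e)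
    (hq : (Srt e q).Infinite) {lam : ℕ → L} (hlam : Lam N e p q lam) {x x' : ℕ} (hne : x ≠ x')
    (hx : e x x = p) (hx' : e x' x' = p) {a : ℕ → ℕ → Option L} (ha : Cnd N e p q a) {i : ℕ}
    (j : ℕ) (hi : ∀ w, a x w ≠ some (lam i)) (s : ℕ)
    (hs : (s : ℕ∞) ≤ {w | e x w = lam i}.encard) :
    ∃ b, Cnd N e p q b ∧ Le a b ∧ {w | b x w = some (lam i)}.encard = s ∧
      ∀ w, b x w = some (lam i) → ∃ j', j' ≠ j ∧ b x' w = some (lam j') := by
  induction s with
  | zero =>
    refine ⟨a, ha, fun _ _ _ h => h, ?_, fun w h => absurd h (hi w)⟩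
    have h0 : {w | a x w = some (lam i)} = ∅ := by
      ext w
      simp [hi w]
    rw [h0, Set.encard_empty]
    rfl
  | succ s ih =>
    have hs' : (s : ℕ∞) < {w | e x w = lam i}.encard := by
      refine lt_of_lt_of_le ?_ hs
      exact_mod_cast Nat.lt_succ_self s
    obtain ⟨b, hb, hab, hbs, hbj⟩ := ih hs'.le
    have hfin : ({j' | ∃ w, b x' w = some (lam j')} ∪ {i, j}).Finite :=
      (row_finite hb hlam.1 x').union (Set.toFinite _)
    obtain ⟨j', hj'⟩ := hfin.infinite_compl.nonempty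
    have hj1 : ∀ w, b x' w ≠ some (lam j') := fun w hw => hj' (Or.inl ⟨w, hw⟩)
    have hj2 : i ≠ j' := fun h => hj' (Or.inr (by rw [← h]; simp))
    have hj3 : j' ≠ j := fun h => hj' (Or.inr (by rw [h]; simp))
    obtain ⟨c, z, hc, hbc, hcxz, hcx'z, hbz, hcn⟩ := rb_step hDEG hRBA hN he hq hlam hne hx hx' hb
      hj2 (by rw [hbs]; exact hs') hj1
    have hset : {w | c x w = some (lam i)} = insert z {w | b x w = some (lam i)} := by
      ext w
      simp only [Set.mem_setOf_eq, Set.mem_insert_iff]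
      constructor
      · intro h
        rcases hcn w (by rw [h]; exact Option.some_ne_none _) with h1 | h1
        · obtain ⟨l, hl'⟩ := Option.ne_none_iff_exists'.1 h1
          have := hbc x w l hl'
          rw [h] at this
          rw [← this] at hl'
          exact Or.inr hl'
        · exact Or.inl h1
      · rintro (h | h)
        · rw [h]; exact hcxz
        · exact hbc x w _ h
    have hzn : z ∉ {w | b x w = some (lam i)} := by
      intro h
      have h' : b x z = some (lam i) := h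
      rw [hbz] at h'
      cases h'
    refine ⟨c, hc, fun u v l h => hbc u v l (hab u v l h), ?_, ?_⟩
    · rw [hset, Set.encard_insert_of_notMem hzn, hbs]
      push_cast
      rfl
    · intro w hw
      have hw' : w ∈ insert z {w | b x w = some (lam i)} := by
        rw [← hset]; exact hw
      rcases hw' with h | h
      · exact ⟨j', hj3, by rw [h]; exact hcx'z⟩
      · obtain ⟨j'', h1, h2⟩ := hbj w h
        exact ⟨j'', h1, hbc x' w _ h2⟩

end

theorem pf_RBD (hDEG : T_DEG) (hRBA : T_RBA) : T_RBD := by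
  intro L N hN e he p q _ hq lam hlam x x' hne hx hx' a ha r
  obtain ⟨i, hi⟩ := (row_finite ha hlam.1 x).infinite_compl.nonempty
  have hi1 : ∀ w, a x w ≠ some (lam i) := fun w hw => hi ⟨w, hw⟩
  have hfin : ({j | ∃ w, a x' w = some (lam j)} ∪ {i}).Finite :=
    (row_finite ha hlam.1 x').union (Set.toFinite _)
  obtain ⟨j, hj⟩ := hfin.infinite_compl.nonempty
  have hj1 : ∀ w, a x' w ≠ some (lam j) := fun w hw => hj (Or.inl ⟨w, hw⟩)
  have hj2 : i ≠ j := fun h => hj (Or.inr (by rw [← h]; simp))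
  obtain ⟨hoi, u1, v1, huv1, hu1, hv1, huvi⟩ := hlam.2 i
  have hd := hDEG L N hN ℕ ℕ e e he he x x rfl (lam i) hoi
  by_cases hr : (i, j) ∈ r
  · obtain ⟨d, hd'⟩ := ENat.ne_top_iff_exists.1 (Set.encard_ne_top_iff.2 hd.1)
    obtain ⟨b, hb, hab, hbs, hbj⟩ := rb_fill hDEG hRBA hN he hq hlam hne hx hx' ha j hi1 d
      (by rw [hd'])
    refine ⟨b, hb, hab, ?_⟩
    intro e' he' hdeg hset
    rw [← hset] at hr
    obtain ⟨y, hy1, hy2⟩ := hr
    have h1 : {w | b x w = some (lam i)} ⊆ {w | e' x w = lam i} := fun w hw => he' x w _ hw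
    have h2 : {w | e' x w = lam i}.encard ≤ {w | b x w = some (lam i)}.encard := by
      rw [hbs, hdeg _ hoi, hd']
    have h3 : {w | e' x w = lam i}.Finite := by
      rw [← Set.encard_ne_top_iff, hdeg _ hoi, ← hd']
      exact ENat.coe_ne_top d
    have h4 := h3.eq_of_subset_of_encard_le' h1 h2
    have h5 : y ∈ {w | b x w = some (lam i)} := by
      rw [h4]; exact hy1
    obtain ⟨j', h6, h7⟩ := hbj y h5
    have h8 := he' x' y _ h7
    have h9 : e' x' y = lam j := hy2
    rw [h9] at h8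
    exact h6 (hlam.1 h8).symm
  · have hpos : {w | a x w = some (lam i)}.encard < {w | e x w = lam i}.encard := by
      have h0 : {w | a x w = some (lam i)} = ∅ := by
        ext w
        simp [hi1 w]
      rw [h0, Set.encard_empty]
      exact deg_pos hDEG hN he (by rw [hu1, hx]) huvi hoi
    obtain ⟨b, z, hb, hab, h1, h2, _, _⟩ := rb_step hDEG hRBA hN he hq hlam hne hx hx' ha hj2
      hpos hj1
    refine ⟨b, hb, hab, ?_⟩
    intro e' he' _ hset
    apply hr
    rw [← hset]
    exact ⟨z, he' x z _ h1, he' x' z _ h2⟩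

end Pool.Agent.H67.CQ
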