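import Pool.Agent.H71.CQ.Basic

/-!
# WTR: algebraic points stay algebraic
-/

set_option autoImplicit false

open Set

namespace Pool.Agent.H67.CQ

open Pool.Agent.H71.CQ

theorem pf_WTR : T_WTR := by
  intro L N V V' e E i hi hf
  have key : ∀ x (hx : Wp N e x), Wp N E (i ⟨x, hx⟩) := by
    intro x hx
    induction hx with
    | base x h =>
      refine Wp.base _ ?_
      have h1 := hf ⟨x, Wp.base x h⟩ h
      rw [hi]
      exact h1
    | step x y hx h ih =>
      refine Wp.step (i ⟨x, hx⟩) _ ih ?_
      rw [hi]
      exact h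
  exact fun x => key x.1 x.2

end Pool.Agent.H67.CQ
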